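import Pool.Agent.Run7.h519.FL.Stm

/-!
# Piece C: admissible bases and complete flags
-/

set_option autoImplicit false

noncomputable section

open Filter Topology Set
open scoped BigOperators

namespace Run7.h519.FL

namespace CC

variable {n : ℕ}

/-- abbreviation -/
abbrev EE (n : ℕ) := EuclideanSpace ℝ (Fin n)

/-- the vertices of the `i`-th face -/
def TT (V : Finset (EE n)) (v : Fin n → EE n) (i : Fin n) : Set (EE n) :=
  {b | b ∈ V ∧ ∃ c : Fin n → ℝ, b = ∑ k, c k • v k ∧ ∑ k, c k = 1 ∧ ∀ k, i < k → c k = 0}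

/-- the flag of an admissible basis -/
def Phi (V : Finset (EE n)) (v : Fin n → EE n) (i : Fin n) : Set (EE n) := convexHull ℝ (TT V v i)

theorem TT_mono (V : Finset (EE n)) (v : Fin n → EE n) : Monotone (TT V v) := by
  intro i j hij b hb
  obtain ⟨h1, c, h2, h3, h4⟩ := hb
  exact ⟨h1, c, h2, h3, fun k hk => h4 k (lt_of_le_of_lt hij hk)⟩

theorem mem_TT (V : Finset (EE n)) (v : Fin n → EE n) (hv : ∀ i, v i ∈ V) {i j : Fin n}
    (hij : i ≤ j) : v i ∈ TT V v j := by
  classical
  refine ⟨hv i, Pi.single i 1, ?_, ?_, ?_⟩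
  · simp [Pi.single_apply]
  · simp
  · intro k hk
    rw [Pi.single_apply, if_neg]
    rintro rfl
    exact absurd hij (not_le.2 hk)

/-- the points of the face have the right coordinates -/
theorem coord_Phi (V : Finset (EE n)) (v : Fin n → EE n) (i : Fin n) :
    Phi V v i ⊆ {b | ∃ c : Fin n → ℝ, b = ∑ k, c k • v k ∧ ∑ k, c k = 1 ∧ ∀ k, i < k → c k = 0} := by
  refine convexHull_min (fun b hb => hb.2) ?_
  rintro x ⟨c, h1, h2, h3⟩ x' ⟨c', h1', h2', h3'⟩ a a' ha ha' haa
  refine ⟨fun k => a * c k + a' * c' k, ?_, ?_, ?_⟩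
  · rw [h1, h1', Finset.smul_sum, Finset.smul_sum, ← Finset.sum_add_distrib]
    refine Finset.sum_congr rfl fun k _ => ?_
    rw [add_smul, mul_smul, mul_smul]
  · rw [Finset.sum_add_distrib, ← Finset.mul_sum, ← Finset.mul_sum, h2, h2']
    linarith
  · intro k hk
    simp [h3 k hk, h3' k hk]

/-- finite-dimensional face lemma -/
theorem face (V : Finset (EE n)) (ψ : EE n →ₗ[ℝ] ℝ) (h1 : ∀ b ∈ V, ψ b ≤ 1) (x : EE n)
    (hx : x ∈ convexHull ℝ (V : Set (EE n))) (hx1 : ψ x = 1) :
    x ∈ convexHull ℝ {b | b ∈ V ∧ ψ b = 1} := by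
  classical
  rw [Finset.mem_convexHull'] at hx
  obtain ⟨w, hw0, hw1, hwx⟩ := hx
  have e1 : ∑ b ∈ V, w b * (1 - ψ b) = 0 := by
    have : ψ x = ∑ b ∈ V, w b * ψ b := by
      rw [← hwx, map_sum]
      exact Finset.sum_congr rfl fun b _ => by rw [map_smul, smul_eq_mul]
    have h2 : ∑ b ∈ V, w b * (1 - ψ b) = ∑ b ∈ V, w b - ∑ b ∈ V, w b * ψ b := by
      rw [← Finset.sum_sub_distrib]
      exact Finset.sum_congr rfl fun b _ => by ring
    rw [h2, hw1, ← this, hx1, sub_self]
  have e2 : ∀ b ∈ V, w b * (1 - ψ b) = 0 :=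
    (Finset.sum_eq_zero_iff_of_nonneg fun b hb =>
      mul_nonneg (hw0 b hb) (by linarith [h1 b hb])).1 e1
  have e3 : ({b | b ∈ V ∧ ψ b = 1} : Set (EE n)) = ((V.filter fun b => ψ b = 1 : Finset (EE n)) :
      Set (EE n)) := by
    ext b; simp
  rw [e3, Finset.mem_convexHull']
  have e4 : ∀ b ∈ V, ¬ ψ b = 1 → w b = 0 := by
    intro b hb hne
    rcases mul_eq_zero.1 (e2 b hb) with h | h
    · exact h
    · exact absurd (by linarith) hne
  refine ⟨w, fun b hb => hw0 b (Finset.mem_filter.1 hb).1, ?_, ?_⟩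
  · rw [Finset.sum_filter_of_ne, hw1]
    intro b hb hne
    by_contra h
    exact hne (e4 b hb h)
  · rw [Finset.sum_filter_of_ne, hwx]
    intro b hb hne
    by_contra h
    exact hne (by rw [e4 b hb h, zero_smul])

/-- the coordinates -/
theorem exists_coord (v : Fin n → EE n) (hv : LinearIndependent ℝ v) (b : EE n) :
    ∃ c : Fin n → ℝ, b = ∑ k, c k • v k := by
  have hc : Fintype.card (Fin n) = Module.finrank ℝ (EE n) := by simp
  let B := basisOfLinearIndependentOfCardEqFinrank' v hv hc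
  refine ⟨fun k => B.repr b k, ?_⟩
  have h := B.sum_repr b
  have hB : ∀ k, B k = v k := fun k => by
    simp [B]
  simp only [hB] at h
  exact h.symm

theorem exists_functional (v : Fin n → EE n) (hv : LinearIndependent ℝ v) (a : Fin n → ℝ) :
    ∃ ψ : EE n →ₗ[ℝ] ℝ, ∀ k, ψ (v k) = a k := by
  have hc : Fintype.card (Fin n) = Module.finrank ℝ (EE n) := by simp
  let B := basisOfLinearIndependentOfCardEqFinrank' v hv hc
  refine ⟨B.constr ℝ a, fun k => ?_⟩
  have hB : B k = v k := by simp [B]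
  rw [← hB, Module.Basis.constr_basis]

/-- leading coefficients -/
theorem lead (c : Fin n → ℝ) (i K : Fin n) (hiK : i < K) (hK : 0 < c K) (h0 : ∀ k, K < k → c k = 0) :
    ∀ᶠ ε : ℝ in 𝓝[>] 0, 0 < ∑ k, if i < k then c k * ε ^ (n - (k : ℕ)) else 0 := by
  have h1 : Tendsto (fun ε : ℝ => ∑ k : Fin n, if i < k then
      (if k ≤ K then c k * ε ^ ((K : ℕ) - (k : ℕ)) else 0) else 0) (𝓝[>] 0)
      (𝓝 (∑ k : Fin n, if i < k then (if k ≤ K then c k * (0:ℝ) ^ ((K : ℕ) - (k : ℕ)) else 0) else 0)) := by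
    have hcont : Continuous (fun ε : ℝ => ∑ k : Fin n, if i < k then
      (if k ≤ K then c k * ε ^ ((K : ℕ) - (k : ℕ)) else 0) else 0) := by
      refine continuous_finsetSum _ fun k _ => ?_
      split_ifs <;> fun_prop
    exact (hcont.tendsto 0).mono_left nhdsWithin_le_nhds
  have h2 : (∑ k : Fin n, if i < k then (if k ≤ K then c k * (0:ℝ) ^ ((K : ℕ) - (k : ℕ)) else 0) else 0)
      = c K := by
    rw [Finset.sum_eq_single K]
    · simp [hiK]
    · intro k _ hk
      split_ifs with h3 h4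
      · have : (K : ℕ) - (k : ℕ) ≠ 0 := by
          have : (k : ℕ) < K := lt_of_le_of_ne h4 (fun h => hk (Fin.ext h))
          omega
        rw [zero_pow this, mul_zero]
      · rfl
      · rfl
    · simp
  rw [h2] at h1
  have h3 := (tendsto_order.1 h1).1 0 hK
  filter_upwards [h3, self_mem_nhdsWithin] with ε h4 hε
  have hε' : (0 : ℝ) < ε := hε
  have e : (∑ k : Fin n, if i < k then c k * ε ^ (n - (k : ℕ)) else 0) =
      ε ^ (n - (K : ℕ)) * ∑ k : Fin n, if i < k then
        (if k ≤ K then c k * ε ^ ((K : ℕ) - (k : ℕ)) else 0) else 0 := by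
    rw [Finset.mul_sum]
    refine Finset.sum_congr rfl fun k _ => ?_
    split_ifs with h5 h6
    · have h7 : (k : ℕ) ≤ K := h6
      have h8 : (K : ℕ) < n := K.2
      have : n - (k : ℕ) = (n - (K : ℕ)) + ((K : ℕ) - (k : ℕ)) := by omega
      rw [this, pow_add]
      ring
    · rw [h0 k (not_le.1 h6)]
      ring
    · ring
  rw [e]
  exact mul_pos (pow_pos hε' _) h4

/-- the exposing functional -/
theorem exists_psi (V : Finset (EE n)) (v : Fin n → EE n) (hli : LinearIndependent ℝ v)
    (y : Fin n → ℝ) (hy : StrictMono fun i => |y i|) (hadm : Adm (V : Set (EE n)) v y) (i : Fin n) :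
    ∃ ψ : EE n →ₗ[ℝ] ℝ, (∀ b ∈ V, ψ b ≤ 1) ∧ ∀ b ∈ V, (ψ b = 1 ↔ b ∈ TT V v i) := by
  classical
  have key : ∀ b ∈ V, ∀ᶠ ε : ℝ in 𝓝[>] 0, ∀ ψ : EE n →ₗ[ℝ] ℝ,
      (∀ k, ψ (v k) = if i < k then 1 - ε ^ (n - (k : ℕ)) else 1) →
      ψ b ≤ 1 ∧ (ψ b = 1 ↔ b ∈ TT V v i) := by
    intro b hb
    obtain ⟨c, hc⟩ := exists_coord v hli b
    have hψ : ∀ (ε : ℝ) (ψ : EE n →ₗ[ℝ] ℝ),
      (∀ k, ψ (v k) = if i < k then 1 - ε ^ (n - (k : ℕ)) else 1) →
      ψ b = ∑ k, c k - ∑ k, if i < k then c k * ε ^ (n - (k : ℕ)) else 0 := by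
      intro ε ψ hψ
      rw [hc, map_sum, ← Finset.sum_sub_distrib]
      refine Finset.sum_congr rfl fun k _ => ?_
      rw [map_smul, hψ k, smul_eq_mul]
      split_ifs <;> ring
    obtain ⟨hs, hs2⟩ := hadm b hb c hc
    -- uniqueness of coordinates
    have huniq : ∀ c' : Fin n → ℝ, b = ∑ k, c' k • v k → c' = c := by
      intro c' hc'
      have h1 : ∑ k, (c' k - c k) • v k = 0 := by
        simp only [sub_smul, Finset.sum_sub_distrib]
        rw [← hc', ← hc, sub_self]
      have h2 := Fintype.linearIndependent_iff.1 hli _ h1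
      funext k
      linarith [h2 k]
    rcases lt_or_eq_of_le hs with hlt | heq
    · -- strictly inside
      have h1 : Tendsto (fun ε : ℝ => ∑ k, c k - ∑ k, if i < k then c k * ε ^ (n - (k : ℕ)) else 0)
          (𝓝[>] 0) (𝓝 (∑ k, c k - ∑ k, if i < k then c k * (0:ℝ) ^ (n - (k : ℕ)) else 0)) := by
        have hcont : Continuous (fun ε : ℝ => ∑ k, c k - ∑ k, if i < k then
            c k * ε ^ (n - (k : ℕ)) else 0) := by
          refine continuous_const.sub (continuous_finsetSum _ fun k _ => ?_)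
          split_ifs <;> fun_prop
        exact (hcont.tendsto 0).mono_left nhdsWithin_le_nhds
      have h2 : (∑ k, if i < k then c k * (0:ℝ) ^ (n - (k : ℕ)) else 0) = 0 := by
        refine Finset.sum_eq_zero fun k _ => ?_
        have : n - (k : ℕ) ≠ 0 := by
          have := k.2
          omega
        rw [zero_pow this, mul_zero, ite_self]
      rw [h2, sub_zero] at h1
      filter_upwards [(tendsto_order.1 h1).2 1 hlt] with ε hε ψ hψ'
      rw [hψ ε ψ hψ']
      refine ⟨hε.le, fun h => absurd h hε.ne, fun h => ?_⟩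
      obtain ⟨_, c', h3, h4, _⟩ := h
      rw [huniq c' h3] at h4
      exact absurd h4 hlt.ne
    · by_cases hz : ∀ k, i < k → c k = 0
      · refine Eventually.of_forall fun ε ψ hψ' => ?_
        have h1 : ψ b = 1 := by
          rw [hψ ε ψ hψ', heq]
          have : (∑ k, if i < k then c k * ε ^ (n - (k : ℕ)) else 0) = 0 := by
            refine Finset.sum_eq_zero fun k _ => ?_
            split_ifs with h
            · rw [hz k h, zero_mul]
            · rfl
          rw [this, sub_zero]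
        exact ⟨h1.le, fun _ => ⟨hb, c, hc, heq, hz⟩, fun _ => h1⟩
      · push Not at hz
        obtain ⟨k0, hk0, hk0'⟩ := hz
        -- the largest index with `c ≠ 0`
        have hne : (Finset.univ.filter fun k => c k ≠ 0).Nonempty := ⟨k0, by simp [hk0']⟩
        set K := (Finset.univ.filter fun k => c k ≠ 0).max' hne with hK
        have hKmem : c K ≠ 0 := by
          have := Finset.max'_mem _ hne
          rw [← hK] at this
          simpa using this
        have hKmax : ∀ k, c k ≠ 0 → k ≤ K := fun k hk =>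
          Finset.le_max' _ _ (by simp [hk])
        have hiK : i < K := lt_of_lt_of_le hk0 (hKmax k0 hk0')
        have hpos := (hs2 heq K hKmem fun j hj => hy.monotone (hKmax j hj)).1
        have h0 : ∀ k, K < k → c k = 0 := by
          intro k hk
          by_contra h
          exact absurd (hKmax k h) (not_le.2 hk)
        filter_upwards [lead c i K hiK hpos h0] with ε hε ψ hψ'
        rw [hψ ε ψ hψ', heq]
        refine ⟨by linarith, fun h => by linarith, fun h => ?_⟩
        obtain ⟨_, c', h3, _, h5⟩ := h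
        rw [huniq c' h3] at h5
        exact absurd (h5 K hiK) hKmem
  have hall : ∀ᶠ ε : ℝ in 𝓝[>] 0, ∀ b ∈ V, ∀ ψ : EE n →ₗ[ℝ] ℝ,
      (∀ k, ψ (v k) = if i < k then 1 - ε ^ (n - (k : ℕ)) else 1) →
      ψ b ≤ 1 ∧ (ψ b = 1 ↔ b ∈ TT V v i) := (eventually_all_finset V).2 key
  obtain ⟨ε, hε⟩ := hall.exists
  obtain ⟨ψ, hψ⟩ := exists_functional v hli (fun k => if i < k then 1 - ε ^ (n - (k : ℕ)) else 1)
  exact ⟨ψ, fun b hb => (hε b hb ψ hψ).1, fun b hb => (hε b hb ψ hψ).2⟩

theorem exposed (V : Finset (EE n)) (v : Fin n → EE n) (hv : ∀ i, v i ∈ V)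
    (hli : LinearIndependent ℝ v)
    (y : Fin n → ℝ) (hy : StrictMono fun i => |y i|) (hadm : Adm (V : Set (EE n)) v y) (i : Fin n) :
    IsExposed ℝ (convexHull ℝ (V : Set (EE n))) (Phi V v i) := by
  intro _
  obtain ⟨ψ, h1, h2⟩ := exists_psi V v hli y hy hadm i
  have hT : TT V v i = {b | b ∈ V ∧ ψ b = 1} := by
    ext b
    constructor
    · intro hb
      exact ⟨hb.1, (h2 b hb.1).2 hb⟩
    · rintro ⟨hb, hb1⟩
      exact (h2 b hb).1 hb1
  have hle : ∀ x ∈ convexHull ℝ (V : Set (EE n)), ψ x ≤ 1 := by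
    have : convexHull ℝ (V : Set (EE n)) ⊆ {x | ψ x ≤ 1} :=
      convexHull_min (fun b hb => h1 b hb) (convex_halfSpace_le ψ.isLinear 1)
    exact this
  have heq : ∀ x ∈ Phi V v i, ψ x = 1 := by
    have : Phi V v i ⊆ {x | ψ x = 1} :=
      convexHull_min (fun b hb => (h2 b hb.1).2 hb) (convex_hyperplane ψ.isLinear 1)
    exact this
  refine ⟨LinearMap.toContinuousLinearMap ψ, ?_⟩
  ext x
  constructor
  · intro hx
    refine ⟨convexHull_mono (fun b hb => hb.1) hx, fun z hz => ?_⟩
    have := hle z hz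
    have h3 := heq x hx
    simp only [LinearMap.coe_toContinuousLinearMap']
    linarith
  · rintro ⟨hx, hmax⟩
    have h3 := hmax (v i) (subset_convexHull ℝ _ (hv i))
    simp only [LinearMap.coe_toContinuousLinearMap'] at h3
    have h4 : ψ (v i) = 1 := (h2 _ (hv i)).2 (mem_TT V v hv le_rfl)
    have h5 : ψ x = 1 := le_antisymm (hle x hx) (by linarith)
    unfold Phi
    rw [hT]
    exact face V ψ h1 x hx h5

theorem dim (V : Finset (EE n)) (v : Fin n → EE n) (hv : ∀ i, v i ∈ V)
    (hli : LinearIndependent ℝ v) (i : Fin n) :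
    Module.finrank ℝ (vectorSpan ℝ (Phi V v i)) = (i : ℕ) := by
  classical
  have e1 : vectorSpan ℝ (Phi V v i) = vectorSpan ℝ (TT V v i) := by
    rw [← direction_affineSpan, ← direction_affineSpan]
    unfold Phi
    rw [affineSpan_convexHull]
  -- the points `v 0, ..., v i`
  let p : Fin ((i : ℕ) + 1) → EE n := fun j => v ⟨j, by have := j.2; have := i.2; omega⟩
  have hp : LinearIndependent ℝ p := by
    refine hli.comp (fun j : Fin ((i : ℕ) + 1) => (⟨j, by have := j.2; have := i.2; omega⟩ : Fin n)) ?_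
    intro a b hab
    simp only [Fin.mk.injEq] at hab
    exact Fin.ext hab
  have hpa : AffineIndependent ℝ p := hp.affineIndependent
  have h2 := hpa.finrank_vectorSpan (n := (i : ℕ)) (by simp)
  suffices e2 : vectorSpan ℝ (TT V v i) = vectorSpan ℝ (Set.range p) by
    rw [e1, e2, h2]
  apply le_antisymm
  · -- `TT` spans no more
    have h0 : ∀ b ∈ TT V v i, b - v ⟨0, by have := i.2; omega⟩ ∈ vectorSpan ℝ (Set.range p) := by
      rintro b ⟨_, c, hc, hc1, hc0⟩
      have e : b - v ⟨0, by have := i.2; omega⟩ =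
          ∑ k, c k • (v k - v ⟨0, by have := i.2; omega⟩) := by
        simp only [smul_sub, Finset.sum_sub_distrib]
        rw [← hc, ← Finset.sum_smul, hc1, one_smul]
      rw [e]
      refine Submodule.sum_mem _ fun k _ => ?_
      by_cases hk : i < k
      · rw [hc0 k hk, zero_smul]
        exact Submodule.zero_mem _
      · refine Submodule.smul_mem _ _ ?_
        have hk' : (k : ℕ) ≤ i := not_lt.1 hk
        exact vsub_mem_vectorSpan ℝ ⟨⟨k, by omega⟩, rfl⟩ ⟨⟨0, by omega⟩, rfl⟩
    rw [vectorSpan_def, Submodule.span_le]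
    rintro _ ⟨b, hb, b', hb', rfl⟩
    have h3 : b -ᵥ b' = (b - v ⟨0, by have := i.2; omega⟩) - (b' - v ⟨0, by have := i.2; omega⟩) := by
      rw [vsub_eq_sub]; abel
    simp only [h3]
    exact Submodule.sub_mem _ (h0 b hb) (h0 b' hb')
  · refine vectorSpan_mono ℝ ?_
    rintro _ ⟨j, rfl⟩
    refine mem_TT V v hv ?_
    have := j.2
    exact Fin.le_def.2 (by simp; omega)

/-- the inductive step -/
theorem step (V : Finset (EE n)) (y : Fin n → ℝ) (h0 : ∀ i, y i ≠ 0)
    (hy : StrictMono fun i => |y i|) (v v' : Fin n → EE n) (hv : ∀ i, v i ∈ V)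
    (hv' : ∀ i, v' i ∈ V) (hli : LinearIndependent ℝ v) (hli' : LinearIndependent ℝ v')
    (hadm : Adm (V : Set (EE n)) v y) (hadm' : Adm (V : Set (EE n)) v' y)
    (hgen : ∀ b ∈ V, ∀ c : Fin n → ℝ, b = ∑ i, c i • v i → ∀ j, ∑ i, c i * y i = y j → b = v j)
    (hflag : Phi V v = Phi V v') (i : Fin n) (hlt : ∀ j, j < i → v' j = v j) : v' i = v i := by
  classical
  -- coordinates of `v' i`
  have h1 : v' i ∈ Phi V v i := by
    rw [hflag]
    exact subset_convexHull ℝ _ (mem_TT V v' hv' le_rfl)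
  obtain ⟨c, hc, hc1, hc0⟩ := coord_Phi V v i h1
  have hci : c i ≠ 0 := by
    intro h
    have h2 : v' i = ∑ k, c k • v' k := by
      conv_lhs => rw [hc]
      refine Finset.sum_congr rfl fun k _ => ?_
      rcases lt_trichotomy k i with hk | hk | hk
      · rw [hlt k hk]
      · rw [hk, h, zero_smul, zero_smul]
      · rw [hc0 k hk, zero_smul, zero_smul]
    have h3 : ∑ k, (c k - Pi.single (M := fun _ => ℝ) i 1 k) • v' k = 0 := by
      simp only [sub_smul, Finset.sum_sub_distrib]
      rw [← h2]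
      simp [Pi.single_apply]
    have h4 := Fintype.linearIndependent_iff.1 hli' _ h3 i
    simp [h] at h4
  obtain ⟨hcpos, hT1⟩ := (hadm (v' i) (hv' i) c hc).2 hc1 i hci (fun j hj => by
    refine hy.monotone ?_
    by_contra h
    exact hj (hc0 j (not_le.1 h)))
  -- coordinates of `v i` with respect to `v'`
  set c' : Fin n → ℝ := fun k => (if k = i then 1 else - c k) / c i with hc'
  have hsplit : ∀ g : Fin n → ℝ, ∑ k, c' k * g k = (g i - (∑ k, c k * g k - c i * g i)) / c i := by
    intro g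
    have e1 : ∑ k, c' k * g k = ∑ k, ((if k = i then (1 + c i) * g i else 0) - c k * g k) / c i := by
      refine Finset.sum_congr rfl fun k _ => ?_
      simp only [hc']
      split_ifs with h
      · rw [h]; ring
      · ring
    rw [e1, ← Finset.sum_div, Finset.sum_sub_distrib, Finset.sum_ite_eq' Finset.univ i]
    simp only [Finset.mem_univ, if_true]
    ring
  have hc'1 : ∑ k, c' k = 1 := by
    have := hsplit (fun _ => 1)
    simp only [mul_one] at this
    rw [this, hc1]
    field_simp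
    ring
  have hc'v : v i = ∑ k, c' k • v' k := by
    have e1 : ∀ k, c' k • v' k = (1 / c i) • ((if k = i then (v' i + c i • v i) else 0) - c k • v k) := by
      intro k
      rcases lt_trichotomy k i with hk | hk | hk
      · rw [hlt k hk]
        simp only [hc', if_neg hk.ne, zero_sub, smul_neg, smul_smul]
        rw [← neg_smul]
        congr 1
        ring
      · subst hk
        simp only [hc', if_true, add_sub_cancel_right]
      · have h5 : c' k = 0 := by
          simp only [hc', if_neg hk.ne', hc0 k hk]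
          simp
        rw [h5, hc0 k hk, if_neg hk.ne']
        simp
    simp_rw [e1]
    rw [← Finset.smul_sum, Finset.sum_sub_distrib, ← hc, Finset.sum_ite_eq' Finset.univ i]
    simp only [Finset.mem_univ, if_true]
    rw [add_sub_cancel_left, smul_smul, one_div_mul_cancel hci, one_smul]
  obtain ⟨_, hT2⟩ := (hadm' (v i) (hv i) c' hc'v).2 hc'1 i (by simp only [hc', if_true]; positivity)
    (fun j hj => by
      refine hy.monotone ?_
      by_contra h
      apply hj
      have hj' := not_le.1 h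
      simp only [hc', if_neg hj'.ne', hc0 j hj', neg_zero, zero_div])
  rw [hsplit y, abs_div, abs_of_pos hcpos, div_le_iff₀ hcpos] at hT2
  -- the tie
  have key : ∑ k, c k * y k = y i := by
    rcases lt_or_gt_of_ne (h0 i) with hneg | hpos
    · rw [abs_of_neg hneg] at hT1 hT2
      have a1 := (abs_le.1 hT1)
      have a2 := (abs_le.1 hT2)
      apply le_antisymm
      · nlinarith [a1.1, a1.2, a2.1, a2.2]
      · nlinarith [a1.1, a1.2, a2.1, a2.2]
    · rw [abs_of_pos hpos] at hT1 hT2
      have a1 := (abs_le.1 hT1)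
      have a2 := (abs_le.1 hT2)
      apply le_antisymm
      · nlinarith [a1.1, a1.2, a2.1, a2.2]
      · nlinarith [a1.1, a1.2, a2.1, a2.2]
  exact hgen (v' i) (hv' i) c hc i key

/-- the sorted case -/
theorem sorted (V : Finset (EE n)) (y : Fin n → ℝ) (h0 : ∀ i, y i ≠ 0)
    (hy : StrictMono fun i => |y i|)
    (hgen : ∀ v : Fin n → EE n, (∀ i, v i ∈ V) → LinearIndependent ℝ v →
      ∀ b ∈ V, ∀ c : Fin n → ℝ, b = ∑ i, c i • v i → ∀ j, ∑ i, c i * y i = y j → b = v j) :
    {v : Fin n → EE n | (∀ i, v i ∈ V) ∧ LinearIndependent ℝ v ∧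
      Adm (V : Set (EE n)) v y}.encard ≤ (Flags (convexHull ℝ (V : Set (EE n)))).encard := by
  refine Set.encard_le_encard_of_injOn (f := Phi V) ?_ ?_
  · rintro v ⟨hv, hli, hadm⟩
    refine ⟨fun i j hij => convexHull_mono (TT_mono V v hij), fun i => ⟨?_, ?_, ?_⟩⟩
    · exact ⟨v i, subset_convexHull ℝ _ (mem_TT V v hv le_rfl)⟩
    · exact exposed V v hv hli y hy hadm i
    · exact dim V v hv hli i
  · rintro v ⟨hv, hli, hadm⟩ v' ⟨hv', hli', hadm'⟩ hflag
    have hall : ∀ i, v' i = v i := by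
      intro i
      induction i using WellFoundedLT.induction with
      | _ i ih =>
        exact step V y h0 hy v v' hv hv' hli hli' hadm hadm' (hgen v hv hli) hflag i ih
    funext i
    exact (hall i).symm

end CC

open CC in
theorem C : S_C := by
  classical
  intro n V y h0 hne hgen
  set σ := Tuple.sort (fun i => |y i|) with hσ
  have hmono : StrictMono fun i => |y (σ i)| := by
    have h1 : Monotone ((fun i => |y i|) ∘ σ) := Tuple.monotone_sort _
    refine h1.strictMono_of_injective ?_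
    intro a b hab
    by_contra h
    exact hne (σ a) (σ b) (fun h' => h (σ.injective h')) hab
  have h1 := sorted V (y ∘ σ) (fun i => h0 (σ i)) hmono (by
    intro v hv hli b hb c hc j hj
    have h2 := hgen (v ∘ σ.symm) (fun i => hv _) (hli.comp _ σ.symm.injective) b hb
      (c ∘ σ.symm) (by
        rw [hc]
        rw [← Equiv.sum_comp σ.symm]
        rfl) (σ j) (by
        have hj' : ∑ i, c i * y (σ i) = y (σ j) := hj
        rw [← hj', ← Equiv.sum_comp σ]
        simp)
    simpa using h2)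
  refine le_trans ?_ h1
  refine Set.encard_le_encard_of_injOn (f := fun v => v ∘ σ) ?_ ?_
  · rintro v ⟨hv, hli, hadm⟩
    refine ⟨fun i => hv _, hli.comp _ σ.injective, ?_⟩
    intro b hb c hc
    have hc' : b = ∑ i, (c ∘ σ.symm) i • v i := by
      rw [hc, ← Equiv.sum_comp σ (fun i => (c ∘ σ.symm) i • v i)]
      simp
    obtain ⟨h2, h3⟩ := hadm b hb (c ∘ σ.symm) hc'
    have hs : ∑ i, (c ∘ σ.symm) i = ∑ i, c i := by
      rw [← Equiv.sum_comp σ]
      simp
    have hs2 : ∑ i, (c ∘ σ.symm) i * y i = ∑ i, c i * (y ∘ σ) i := by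
      rw [← Equiv.sum_comp σ]
      simp
    rw [hs] at h2 h3
    refine ⟨h2, fun h4 i hi hmax => ?_⟩
    have h5 := h3 h4 (σ i) (by simpa using hi) (fun j hj => by
      have := hmax (σ.symm j) hj
      simpa using this)
    rw [hs2] at h5
    simpa using h5
  · intro v _ v' _ h
    funext i
    have := congrFun h (σ.symm i)
    simpa using this

end Run7.h519.FL
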