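import Pool.Agent.H712R2.MA.Stm

/-!
# Kalai's flag conjecture for centrally symmetric polytopes: statements of the pieces

Target: `S10739` (a centrally symmetric `d`-polytope has at least `2^d d!` complete flags).

Idea. The Monge-Ampere method of the starting proof of Mahler's conjecture (`H712R2/MA`) gives, for
every odd entire function `h` univalent on the disc, every finite spanning set `V = -V` of `ℝⁿ`:
`2^n n! (2π)^n ≤ ∑_f vol {θ ∈ (-π,π)^n : ⟨v, z_f⟩ ∈ h (closed disc) for all v ∈ V}`, where the sum is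
over the ordered bases `f` from `V` and `z_f ∈ ℂⁿ` is the point with `⟨f i, z_f⟩ = h(exp (i θ i))`
(`S_B`). For the polynomials `h = FN N` with `Re h(e^{iθ}) = ∫_θ^{π/2} sin^{2N+1}` and `N → ∞` the
events become combinatorial (`S_T`), and for almost every `θ` at most one ordered basis occurs for
each complete flag of `conv V` (`S_C`).

Pieces: `theorem L : S_L`, `theorem B (hL : S_L) : S_B`, `theorem P1 : S_P1`, `theorem P2 : S_P2`,
`theorem P3 (h1 : S_P1) (h2 : S_P2) : S_P3`, `theorem P4 (h1 : S_P1) (h2 : S_P2) : S_P4`,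
`theorem P5 (h2 : S_P2) : S_P5`,
`theorem T (h1 : S_P1) (h2 : S_P2) (h4 : S_P4) (h5 : S_P5) : S_T`, `theorem C : S_C`,
`theorem G : S_G`, and the assembly.  Each in its own file, importing this one
(`Pool/Agent/Run7/<you>/FL/<X>.lean`, namespace `Run7.<you>.FL`).
-/

set_option autoImplicit false

noncomputable section

open MeasureTheory Filter Topology Set
open scoped BigOperators Matrix ENNReal

namespace Run7.h519.FL

open H712MA

/-! ### general univalent functions -/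

/-- odd entire functions which are univalent on the unit disc, with derivative `h'` -/
structure Uni (h h' : ℂ → ℂ) : Prop where
  der : ∀ z, HasDerivAt h (h' z) z
  cont : Continuous h'
  inj : Set.InjOn h (Metric.ball 0 1)
  ne : ∀ z, ‖z‖ ≤ 1 → h' z ≠ 0
  zero : h 0 = 0
  pos : ∃ c : ℝ, 0 < c ∧ h' 0 = (c : ℂ)
  odd : ∀ z, h (-z) = -h z

/-- the point of the disc with `|z|^(2m) = q.1` and argument `q.2` -/
def pt (m : ℕ) (q : ℝ × ℝ) : ℂ :=
  ((q.1 ^ ((1 : ℝ) / (2 * m)) : ℝ) : ℂ) * Complex.exp ((q.2 : ℂ) * Complex.I)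

/-- the domain of `q` -/
def QQ : Set (ℝ × ℝ) := Ioo (0 : ℝ) 1 ×ˢ Ioo (-Real.pi) Real.pi

/-- PIECE L: the lens of a univalent function, and integration against `af`.

Proof (copy and adapt `H712R2/MA/H2.lean` and `H5.lean`). `W := h '' ball 0 1`; `e p` := the
preimage of `p` in the ball, `1` off `W`. `W` open: `h` is analytic, `HasStrictDerivAt.map_nhds_eq`.
`e` is continuous on `W`: for `O ⊆ ball` open `h '' O` is open (same argument) and `e` maps it to `O`.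
`deriv e = 1 / h' (e p)` by `HasDerivAt.of_local_left_inverse`. `{‖e p‖ ≤ r} = h '' closedBall 0 r`
for `r < 1`, compact. `c0 := 1 / c`. `C`: bound of `‖h'‖` on the closed ball (mean value inequality).
`B`: `‖h'‖` has a positive minimum on the closed ball. Measurability: piecewise.
Formula: `af` vanishes off `W`; change of variables `p = h z` on the ball
(`lintegral_image_eq_lintegral_abs_det_fderiv_mul`, as in `H5_cov`), `‖h' z‖² af (h z) =
m² ‖z‖^(2m-2)` (`H5_af`); polar coordinates (`Complex.lintegral_comp_polarCoord_symm`, as in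
`H5_polar`): `∫⁻ θ, ∫⁻ r in (0,1), ofReal (m² r^(2m-1)) b (h (r e^{iθ}))`; substitution `R = r^(2m)`
(`lintegral_image_eq_lintegral_abs_deriv_mul` for `r ↦ r^(2m)` on `Ioo 0 1`). -/
def S_L : Prop := ∀ h h' : ℂ → ℂ, Uni h h' → ∃ L : Lens, L.W = h '' Metric.ball 0 1 ∧
  (∀ z, ‖z‖ < 1 → L.e (h z) = z) ∧ Measurable L.e ∧
  ∀ m : ℕ, 1 ≤ m → ∀ b : ℂ → ℝ≥0∞, Measurable b →
    ∫⁻ p, ENNReal.ofReal (af L m p) * b p =
      ENNReal.ofReal ((m : ℝ) / 2) * ∫⁻ q in QQ, b (h (pt m q))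

/-- the boundary event -/
def Ev {κ : Type} {n : ℕ} (h : ℂ → ℂ) (l : κ → Fin n → ℝ) (f : Fin n → κ) : Set (Fin n → ℝ) :=
  {θ | ∃ z : E2 n, (∀ i, pk (l (f i)) z = h (Complex.exp ((θ i : ℂ) * Complex.I))) ∧
    ∀ k, pk (l k) z ∈ h '' Metric.closedBall 0 1}

/-- the cube of angles -/
def cube (n : ℕ) : Set (Fin n → ℝ) := Set.pi univ fun _ => Ioo (-Real.pi) Real.pi

open Classical in
/-- PIECE B: the boundary inequality.

Proof from `S_L`. `hC6 : S_C6 := C6 (C2 P (C1 P C0 A4) A1) C3 (C4 C0 A2 A4) C5` (all in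
`H712R2/MA`) holds for every `Lens`; take the lens of `h` and `(ψ, v1)` from `S` (any cut-off).
Write `n = r+1`. `DS = ∑_f (∏ a(l(f i) z)) dt_f²`. Fix `f` with `dt l f ≠ 0`. Change variables
`p_i = pk (l (f i)) z` (adapt `F.lean`: `∫⁻ z : E2 n, ofReal (dt²) * G (fun i => pk (l (f i)) z) =
∫⁻ p : Fin n → ℂ, G p`; the inverse is `zz p = (A⁻¹ (re p), A⁻¹ (im p))`). Since `V = -V` and
`‖e (-p)‖ = ‖e p‖` (`h` is odd), `VV ≥ 2 ∑_i ‖e (p_i)‖^(2m)`: the `2n` indices `f i` and `(f i)'` are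
distinct. So `ψ(VV) ≤ 1{all pk (l k) z ∈ W} ψ(2 ∑ ‖e p_i‖^(2m))` (`VV ≥ 1` off `UU` by `P`). Apply the
formula of `S_L` in every variable (induction on `n`, as `FF.lintegral_prod_fin`):
`∫⁻ p, (∏ ofReal (af (p_i))) * G p = ofReal (m/2)^n ∫⁻ q in pi univ QQ, G (fun i => h (pt m (q i)))`
and `‖e (h (pt m q))‖^(2m) = q.1`. Hence, dividing by `(m/2)^n`,
`n! (2π)^n ∫_{s>0} ψ(∑ s) ≤ ∑_f ∫⁻ q in QQ^n, 1{zz (h (pt m q_i)) ∈ UU} ψ(2 ∑ q_i.1)`. `m → ∞`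
(`limsup_lintegral_le`): the limsup of the indicators is at most the closed event
`pk (l k) (zz (h (exp (i θ_i)))) ∈ h '' closedBall 0 1` (compact), which depends on `θ = q.2` only.
Factor (`volume_measurePreserving_arrowProdEquivProdArrow`): `= I * volume (Ev ∩ cube)`,
`I = ∫_{(0,1)^n} ψ(2 ∑ R) = 2^{-n} ∫_{s>0} ψ(∑ s)` (`ψ = 0` beyond `v1 < 1`). Cancel
`0 < ∫ψ < ∞`. Measurability of `Ev`: it is closed. -/
def S_B : Prop := ∀ h h' : ℂ → ℂ, Uni h h' → ∀ (κ : Type) [Fintype κ] (r : ℕ)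
  (l : κ → Fin (r + 1) → ℝ), Spans l → (∀ k, ∃ k', l k' = -l k) →
  (∀ f : Fin (r + 1) → κ, dt l f ≠ 0 → MeasurableSet (Ev h l f)) ∧
  ENNReal.ofReal (2 ^ (r + 1) * (r + 1).factorial * (2 * Real.pi) ^ (r + 1)) ≤
    ∑ f : Fin (r + 1) → κ, if dt l f = 0 then 0 else volume (Ev h l f ∩ cube (r + 1))

/-! ### the polynomials -/

/-- `4 t U_{N+1}(t) = -(1-t)² U_N(t) + U_N(0) (1+t)` -/
def U : ℕ → Polynomial ℝ
  | 0 => 1
  | N + 1 => Polynomial.C (1 / 4) *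
      (-(1 - Polynomial.X) ^ 2 * U N + Polynomial.C ((U N).coeff 0) * (1 + Polynomial.X)).divX

/-- `U_N(0)` -/
def uu (N : ℕ) : ℝ := (U N).coeff 0

/-- `h_N(z) = ∫_0^z U_N(w²) dw` -/
def FN (N : ℕ) (z : ℂ) : ℂ :=
  ∑ j ∈ Finset.range ((U N).natDegree + 1),
    ((U N).coeff j : ℂ) * (z ^ (2 * j + 1) / ((2 * j + 1 : ℕ) : ℂ))

/-- its derivative -/
def FN' (N : ℕ) (z : ℂ) : ℂ := Polynomial.aeval (z ^ 2) (U N)

/-- `Re (z h_N'(z)) = cos θ B_N(sin² θ)` on the circle -/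
def BB : ℕ → ℝ → ℝ
  | 0, _ => 1
  | N + 1, t => t * BB N t + uu N / 2

/-- real part of `h_N(e^{iθ})` -/
def xN (N : ℕ) (θ : ℝ) : ℝ := ∫ t in θ..(Real.pi / 2), Real.sin t ^ (2 * N + 1)

/-- imaginary part of `h_N(e^{iθ})` -/
def yN (N : ℕ) (θ : ℝ) : ℝ := ∫ t in (0 : ℝ)..θ, Real.cos t * BB N (Real.sin t ^ 2)

/-- `xN N 0 - xN N θ` -/
def dN (N : ℕ) (θ : ℝ) : ℝ := ∫ t in (0 : ℝ)..θ, Real.sin t ^ (2 * N + 1)

/-- the limit of the normalised heights (the inverse Gudermannian function) -/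
def YY (θ : ℝ) : ℝ := ∫ t in (0 : ℝ)..θ, 1 / Real.cos t

/-- PIECE P1: boundary values.

Proof. `4 X U_{N+1} = -(1-X)² U_N + C(u_N)(1+X)` (`Polynomial.divX_mul_X_add`; the constant
coefficient of the right side is 0). For `z = e^{iθ}`: `(1-z²)² = -4 sin²θ z²`, `1+z² = 2 z cos θ`, so
`z U_{N+1}(z²) = sin²θ (z U_N(z²)) + (u_N/2) cos θ`; induction gives the first formula. `FN` has
derivative `FN'` (termwise). `d/dθ FN(e^{iθ}) = i e^{iθ} FN'(e^{iθ}) = -sin^{2N+1}θ + i cos θ BB`, the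
same as the derivative of `xN + i yN`; `Re FN(i) = 0 = xN (π/2)`, `Im FN(1) = 0 = yN 0`. -/
def S_P1 : Prop := ∀ (N : ℕ) (θ : ℝ),
  Complex.exp ((θ : ℂ) * Complex.I) * FN' N (Complex.exp ((θ : ℂ) * Complex.I)) =
    ((Real.cos θ * BB N (Real.sin θ ^ 2) : ℝ) : ℂ) +
      ((Real.sin θ ^ (2 * N + 1) : ℝ) : ℂ) * Complex.I ∧
  FN N (Complex.exp ((θ : ℂ) * Complex.I)) = (xN N θ : ℂ) + (yN N θ : ℂ) * Complex.I

/-- PIECE P2: the constants.

Proof. By induction `(U N).coeff j = (-1)^j * (2N+1).choose (N+1+j) / 4^N` for all `j` (Pascal twice;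
for `j = 0` also `(2N+1).choose N = (2N+1).choose (N+1)`), so `uu N = (2N+1).choose (N+1) / 4^N`. -/
def S_P2 : Prop := ∀ N : ℕ, 0 < uu N ∧ uu N * (2 * N + 3) = uu (N + 1) * (2 * N + 4)

/-- PIECE P3: univalence.

Proof. `p(z) = (1-z²) FN'(z)` has on the circle `Re p = 2 sin^{2N+2} θ ≥ 0` (by `S_P1`,
`(1-z²)/z = -2 i sin θ`), so `‖exp(-p)‖ ≤ 1` on the circle, hence on the disc
(`Complex.norm_le_of_forall_mem_frontier_norm_le`), and `Re p > 0` on the open disc (otherwise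
`‖exp (-p)‖` is constant `1`, by `Complex.norm_eqOn_closedBall_of_isMaxOn`, but `Re p(i) = 2`).
Injectivity: `f(φ) = FN((e^φ-1)/(e^φ+1))` on the convex strip `|Im φ| < π/2` has derivative
`p(z)/2`, `z = (e^φ-1)/(e^φ+1)`, `‖z‖ < 1`, so it is injective (`t ↦ Re((f(a+t(b-a)) / (b-a))` is
strictly increasing), and `z ↦ log((1+z)/(1-z))` maps the disc into the strip.
`FN' ≠ 0` on the closed disc: inside because `p ≠ 0`; on the circle by `S_P1`: the imaginary part is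
`sin^{2N+1}`, and if `sin θ = 0` the real part is `± BB N 0 ≠ 0` (`S_P2`). `h' 0 = uu N > 0`. -/
def S_P3 : Prop := ∀ N : ℕ, Uni (FN N) (FN' N)

/-- PIECE P4: the shape of the image.

Proof. `xN N 0 - xN N θ = dN N θ ≥ 0` and `xN N θ + xN N 0 ≥ 0` for `|θ| ≤ π`; so `|Re FN| ≤ xN N 0`
on the circle and then on the disc (`‖exp(± FN)‖`), with strict inequality inside. Second part:
by symmetry (`FN` odd, `FN (conj z) = conj (FN z)`) let `Re FN z > xN N θ`, `Im FN z ≥ 0`. If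
`‖z‖ = 1`, `z = e^{iα}`: `xN N α > xN N θ` gives `|α| < θ` and `yN` is odd and increasing on
`[0, π/2]` (`BB ≥ 0`, `cos ≥ 0`). If `‖z‖ < 1`: by the intermediate value theorem there is
`θ1 ∈ (0, θ)` with `xN N θ1 = Re FN z`. Put `f(φ) = FN((e^φ-1)/(e^φ+1))` on the closed strip
`|Im φ| ≤ π/2`; `f'(φ) = p/2` has real part `≥ 0` (see P3), so
`Re ((f(φ1) - f(φ)) conj(φ1 - φ)) ≥ 0`. Take `φ = log((1+z)/(1-z))`, `|Im φ| < π/2`, and
`φ1 = log cot(θ1/2) + i π/2` (so `(e^φ1-1)/(e^φ1+1) = e^{iθ1}`): `f(φ1) - f(φ) = i (yN θ1 - Im FN z)`,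
hence `(π/2 - Im φ)(yN θ1 - Im FN z) ≥ 0` and `Im FN z ≤ yN θ1 ≤ yN θ`. -/
def S_P4 : Prop := ∀ (N : ℕ) (z : ℂ), ‖z‖ ≤ 1 →
  |(FN N z).re| ≤ xN N 0 ∧
  ∀ θ : ℝ, 0 < θ → θ < Real.pi / 2 → xN N θ < |(FN N z).re| → |(FN N z).im| ≤ yN N θ

/-- PIECE P5: asymptotics.

Proof. (a), (b) with `m = (s+s')/2` (`s' = π/2` in (b), `xN N 0 = dN N (π/2)`): `dN s ≤ s sin^{2N+1} s`,
`dN s' ≥ (s'-m) sin^{2N+1} m`, ratio `≤ C (sin s / sin m)^{2N+1}`.
(c) `b_N(t) = BB N t / (uu N / 2)` satisfies `b_0 = 2`, `b_{N+1} = ρ_N (t b_N + 1)`,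
`ρ_N = (2N+4)/(2N+3)` (`S_P2`), so `δ_N = b_N - 1/(1-t)` satisfies
`δ_{N+1} = ρ_N t δ_N + (ρ_N-1)/(1-t)`; for `0 ≤ t ≤ T = sin² θ < 1` this gives `|δ_N| ≤ s_N` with
`s_{N+1} = ρ_N T s_N + (ρ_N-1)/(1-T) → 0`; and `cos t / (1 - sin² t) = 1 / cos t`. -/
def S_P5 : Prop :=
  (∀ s s' : ℝ, 0 < s → s < s' → s' < Real.pi / 2 →
    Tendsto (fun N => dN N s / dN N s') atTop (𝓝 0)) ∧
  (∀ s : ℝ, 0 < s → s < Real.pi / 2 → Tendsto (fun N => dN N s / xN N 0) atTop (𝓝 0)) ∧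
  (∀ θ : ℝ, -(Real.pi / 2) < θ → θ < Real.pi / 2 →
    Tendsto (fun N => yN N θ / (uu N / 2)) atTop (𝓝 (YY θ)))

/-! ### the limit -/

/-- the angle modulo `π` in `(-π/2, π/2)` -/
def fold (θ : ℝ) : ℝ :=
  if Real.pi / 2 < θ then θ - Real.pi else if θ < -(Real.pi / 2) then θ + Real.pi else θ

/-- the sign of the cosine -/
def sg (θ : ℝ) : ℝ := if 0 < Real.cos θ then 1 else -1

/-- the limit condition for a basis `v` of vectors of `V` and heights `y` -/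
def Adm {E : Type} [AddCommGroup E] [Module ℝ E] {n : ℕ} (V : Set E) (v : Fin n → E)
    (y : Fin n → ℝ) : Prop :=
  ∀ b ∈ V, ∀ c : Fin n → ℝ, b = ∑ i, c i • v i →
    ∑ i, c i ≤ 1 ∧
    (∑ i, c i = 1 → ∀ i, c i ≠ 0 → (∀ j, c j ≠ 0 → |y j| ≤ |y i|) →
      0 < c i ∧ |∑ j, c j * y j| ≤ |y i|)

/-- PIECE T: the tropical limit.

Proof. Let `φ_i = fold (θ i) ∈ (-π/2, π/2)`, `φ_i ≠ 0`, `|φ_i|` pairwise different. `FN` is odd
(termwise) so `sg (θ i) FN(e^{iθ_i}) = FN (e^{iφ_i}) = xN φ_i + i yN φ_i`, `xN φ = xN 0 - dN |φ|`.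
For `b = l k = ∑ c_i v_i` (`v_i = sg (θ i) • l (f i)`), `pk b z = ∑ c_i (xN φ_i + i yN φ_i)` lies in
`FN '' closedBall` for frequently many `N`. Real part, divided by `xN 0`, `N → ∞`: `∑ c_i ≤ 1`
(`S_P4`, `S_P5`(b), `ge_of_tendsto_of_frequently`). If `∑ c_i = 1`: `∑ c_j dN |φ_j| ≥ 0`; divided by
`dN |φ_i|` (`i` with the largest `|φ_i|`, `c_i ≠ 0`; `|YY φ| = YY |φ|` is strictly increasing in
`|φ|`): `c_i ≥ 0` by `S_P5`(a). For `s' ∈ (|φ_i|, π/2)` and large `N`: `Re > xN s'`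
(`∑ c_j dN |φ_j| / dN s' → 0`), so by `S_P4` `|∑ c_j yN φ_j| ≤ yN s'`; divide by `uu N / 2`, `N → ∞`
(`S_P5`(c)), then `s' → |φ_i|` (`YY` is continuous). -/
def S_T : Prop := ∀ (n : ℕ) (κ : Type) [Fintype κ] (l : κ → Fin n → ℝ),
  (∀ k, ∃ k', l k' = -l k) → ∀ (f : Fin n → κ), dt l f ≠ 0 → ∀ θ ∈ cube n,
  (∀ i, Real.cos (θ i) ≠ 0) → (∀ i, Real.sin (θ i) ≠ 0) →
  (∀ i j, i ≠ j → |Real.sin (θ i)| ≠ |Real.sin (θ j)|) →
  (∃ᶠ N in atTop, θ ∈ Ev (FN N) l f) →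
  Adm (Set.range l) (fun i => sg (θ i) • l (f i)) (fun i => YY (fold (θ i)))

/-! ### flags -/

/-- the complete flags of `P` (as in the frozen statement) -/
def Flags {n : ℕ} (P : Set (EuclideanSpace ℝ (Fin n))) : Set (Fin n → Set (EuclideanSpace ℝ (Fin n))) :=
  {f | Monotone f ∧ ∀ i : Fin n, (f i).Nonempty ∧ IsExposed ℝ P (f i) ∧
    Module.finrank ℝ (vectorSpan ℝ (f i)) = (i : ℕ)}

/-- PIECE C: the combinatorial lemma: for generic heights there is at most one admissible basis for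
every flag.

Proof. Let `σ` sort `|y|` increasingly and `u_k = v_{σ k}`, `e_k` the dual basis, `x0 = ∑ e_k`.
`F_i := {x ∈ conv V : ⟨x, x_i⟩ = 1}`, `x_i = x0 - ∑_{j>i} ε^{n-j} e_j`, `ε > 0` small: by `Adm` every
`b = ∑ c_k u_k ∈ V` has `⟨b, x_i⟩ ≤ 1` with equality iff `∑ c = 1` and `c_j = 0` for `j > i`. So `F_i =
conv (V ∩ aff (u_0..u_i))` is exposed, of dimension `i`, increasing in `i`. If `v`, `v'` have the same
flag, then `u_i = u'_i` by induction: `b = u'_i = ∑_{j≤i} c_j u_j`, `∑ c = 1`, `c_i ≠ 0`, so by `Adm`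
`c_i > 0`, `|T + c_i y_i| ≤ |y_i|`, `T = ∑_{j<i} c_j y_j`, and from `u_i = (u'_i - ∑_{j<i} c_j u'_j)/c_i`
`|y_i - T| ≤ c_i |y_i|`; hence `T + c_i y_i = y_i` and `b = u_i` by genericity. -/
def S_C : Prop := ∀ (n : ℕ) (V : Finset (EuclideanSpace ℝ (Fin n))) (y : Fin n → ℝ),
  (∀ i, y i ≠ 0) → (∀ i j, i ≠ j → |y i| ≠ |y j|) →
  (∀ v : Fin n → EuclideanSpace ℝ (Fin n), (∀ i, v i ∈ V) → LinearIndependent ℝ v →
    ∀ b ∈ V, ∀ c : Fin n → ℝ, b = ∑ i, c i • v i → ∀ j, ∑ i, c i * y i = y j → b = v j) →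
  {v : Fin n → EuclideanSpace ℝ (Fin n) | (∀ i, v i ∈ V) ∧ LinearIndependent ℝ v ∧
    Adm (V : Set (EuclideanSpace ℝ (Fin n))) v y}.encard ≤
    (Flags (convexHull ℝ (V : Set (EuclideanSpace ℝ (Fin n))))).encard

/-- PIECE G: almost all angles are generic.

Proof. Let `c_i ≠ δ_ij`. The exceptional set is measurable; by Fubini in the coordinate `i`
(`volume_preserving_piFinSuccAbove` or `MeasureTheory.Measure.pi` slices) it is enough that for fixed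
other coordinates the set of `θ_i ∈ (-π, π)` with `(c_i - δ_ij) YY (fold θ_i) = const` is
countable: `YY` is strictly increasing on `(-π/2, π/2)`, so there are at most 4 such `θ_i`
(plus `± π/2`). -/
def S_G : Prop := ∀ (n : ℕ) (c : Fin n → ℝ) (j : Fin n), (∃ i, c i ≠ if i = j then 1 else 0) →
  ∀ᵐ θ : Fin n → ℝ ∂(volume.restrict (cube n)), ∑ i, c i * YY (fold (θ i)) ≠ YY (fold (θ j))

end Run7.h519.FL
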